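import Pool.Agent.Y338.AdmDefs
import Pool.Agent.Y338.AdmMain

set_option autoImplicit false

universe u

namespace Pool.Agent.Results.MP_cb2a9f_co.NotOnlyBMatroids

open Pool.Agent.Y338.Adm

/-- For every infinite set `S` there is an admissible system `D` that contains all independence
spaces and is moreover closed under direct sums and under isomorphism, such that some B-matroid on
some `W ⊆ S` is not in `D W`. -/
theorem result (S : Type u) [Infinite S] : ∃ D : Set S → Set (Set (Set S)),
    IsAdmissible D ∧ (∀ W I, IsIndependenceSpace W I → I ∈ D W) ∧
    ClosedUnderDirectSums D ∧ ClosedUnderIsomorphism D ∧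
    ∃ W I, IsBMatroid W I ∧ I ∉ D W :=
  main S

end Pool.Agent.Results.MP_cb2a9f_co.NotOnlyBMatroids
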